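import Pool.Agent.Helper99.MKV.GoalsR

/-! # MKV: packet GDM -/

open Finset MeasureTheory ProbabilityTheory Filter
open scoped ENNReal

namespace Pool.Agent.Helper60.MKV

open Pool.Agent.Helper99.MKV Pool.Agent.Helper99.EXC Pool.Agent.Helper99.ERW

section det

variable {E : Type} [Fintype E] {p : E → E → ℝ} {f : E → ℝ}

theorem chS_ok (hp : Stoch p) (hf : ∀ e, 0 ≤ f e ∧ f e ≤ 1) : (chS p f).Ok where
  wt0 := fun _ e i => hp.1 e i
  wt1 := fun _ e => hp.2 e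
  f0 := fun _ e => (hf e).1
  f1 := fun _ e => (hf e).2

theorem av_chS (z : Site 2) (g : E → ℝ) (e : E) : av (chS p f) z g e = ∑ i, p e i * g i := rfl

theorem abs_le_sum (g : E → ℝ) (e : E) : |g e| ≤ ∑ i, |g i| :=
  Finset.single_le_sum (f := fun i => |g i|) (fun _ _ => abs_nonneg _) (Finset.mem_univ e)

end det

section meas

variable {E : Type} [Fintype E] [MeasurableSpace E] [MeasurableSingletonClass E]

theorem meas_sum (D : Finset (Site 2)) (h : Site 2 → ℝ) (g : E → ℝ) :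
    Measurable (fun ζ : Site 2 → E => ∑ z ∈ D, h z * g (ζ z)) := by
  refine Finset.measurable_sum _ fun z _ => ?_
  exact ((Measurable.of_discrete (f := g)).comp (measurable_pi_apply z)).const_mul _

omit [Fintype E] [MeasurableSpace E] [MeasurableSingletonClass E] in
theorem bd_sum (D : Finset (Site 2)) (h : Site 2 → ℝ) (g : E → ℝ) {B : ℝ} (hB : ∀ e, |g e| ≤ B)
    (ζ : Site 2 → E) : |∑ z ∈ D, h z * g (ζ z)| ≤ ∑ z ∈ D, |h z| * B := by
  refine (Finset.abs_sum_le_sum_abs _ _).trans (Finset.sum_le_sum fun z _ => ?_)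
  rw [abs_mul]
  exact mul_le_mul_of_nonneg_left (hB _) (abs_nonneg _)

omit [Fintype E] [MeasurableSingletonClass E] in
theorem int_bdd {X : (Site 2 → E) → ℝ} {ν : Measure (Site 2 → E)} [IsProbabilityMeasure ν]
    (hX : Measurable X) {K : ℝ} (hK : ∀ ζ, |X ζ| ≤ K) : Integrable X ν :=
  Integrable.of_bound hX.aestronglyMeasurable K (Eventually.of_forall fun ζ => by
    rw [Real.norm_eq_abs]; exact hK ζ)

omit [Fintype E] [MeasurableSingletonClass E] in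
/-- first moment from the second -/
theorem first_moment {X : (Site 2 → E) → ℝ} {ν : Measure (Site 2 → E)} [IsProbabilityMeasure ν]
    (hX : Measurable X) {K : ℝ} (hK : ∀ ζ, |X ζ| ≤ K) {δ : ℝ} (hδ : 0 < δ)
    (h2 : ∫ ζ, X ζ ^ 2 ∂ν ≤ δ ^ 2 / 4) : ∫ ζ, |X ζ| ∂ν ≤ δ / 2 := by
  have hi1 : Integrable (fun ζ => |X ζ|) ν := (int_bdd hX hK).abs
  have hi2 : Integrable (fun ζ => X ζ ^ 2) ν :=
    int_bdd (hX.pow_const 2) (K := K ^ 2) fun ζ => by
      rw [abs_pow]; exact pow_le_pow_left₀ (abs_nonneg _) (hK ζ) 2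
  have hle : ∀ ζ, |X ζ| ≤ δ / 4 + δ⁻¹ * X ζ ^ 2 := by
    intro ζ
    have h1 : 0 ≤ (|X ζ| - δ / 2) ^ 2 := sq_nonneg _
    have h3 : |X ζ| * δ ≤ δ ^ 2 / 4 + X ζ ^ 2 := by
      have := sq_abs (X ζ)
      nlinarith
    have h4 : |X ζ| = |X ζ| * δ * δ⁻¹ := by field_simp
    rw [h4]
    calc |X ζ| * δ * δ⁻¹ ≤ (δ ^ 2 / 4 + X ζ ^ 2) * δ⁻¹ := by
          apply mul_le_mul_of_nonneg_right h3 (by positivity)
      _ = _ := by field_simp
  calc ∫ ζ, |X ζ| ∂ν ≤ ∫ ζ, (δ / 4 + δ⁻¹ * X ζ ^ 2) ∂ν :=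
        integral_mono hi1 ((integrable_const _).add (hi2.const_mul _)) hle
    _ = δ / 4 + δ⁻¹ * ∫ ζ, X ζ ^ 2 ∂ν := by
        rw [integral_add (integrable_const _) (hi2.const_mul _), integral_const_mul]
        simp
    _ ≤ δ / 4 + δ⁻¹ * (δ ^ 2 / 4) := by gcongr
    _ = δ / 2 := by field_simp; ring

end meas

theorem GDM (hSCX : SCX_stmt) (hGQ : GQ_stmt) (hPOI : POI_stmt) (hMEG : MEG_stmt) (hFRQ : FRQ_stmt)
    (_hSMS : SMS_stmt) : GDM_stmt := by
  intro E _ _ _ p f a ν _ hp hf ha0 ha1 hM hν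
  obtain ⟨φ, Φ, κ, C, b, k1, hX⟩ := hSCX a ha0 ha1
  obtain ⟨S, T, R, hS, hT, hR⟩ := hPOI E p f a (Df φ 0) hp hM
  -- bounds
  obtain ⟨B, hBd⟩ : ∃ B, B = 1 + ∑ i, |S i| + ∑ i, |T i| := ⟨_, rfl⟩
  have hSn : 0 ≤ ∑ i, |S i| := Finset.sum_nonneg fun _ _ => abs_nonneg _
  have hTn : 0 ≤ ∑ i, |T i| := Finset.sum_nonneg fun _ _ => abs_nonneg _
  have hB1 : 1 ≤ B := by rw [hBd]; linarith
  have hSB : ∀ e, |S e| ≤ B := fun e => by rw [hBd]; linarith [abs_le_sum S e]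
  have hTB : ∀ e, |T e| ≤ B := fun e => by rw [hBd]; linarith [abs_le_sum T e]
  obtain ⟨c0, η, hc0, -, hη, hG⟩ := hGQ κ C b B hX.kpos hX.cone hX.bone hB1
  have hDat : Dat (chS p f) a B (fun _ => S) :=
    { a0 := ha0, a1 := ha1, ok := chS_ok hp hf, b1 := hB1, bd := fun _ e => hSB e
      ps := fun z e => hS e }
  have hPoi : Poi (chS p f) a (Df φ 0) B (∑ i, |R i|) (fun _ => S) (fun _ => R) (fun _ => T)
      (fun _ => 0) :=
    { br := Finset.sum_nonneg fun _ _ => abs_nonneg _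
      bR := fun _ e => abs_le_sum R e
      bT := fun _ e => hTB e
      hT := fun _ e => hT e
      e0 := fun _ => le_refl _
      e1 := fun _ => Finset.sum_nonneg fun _ _ => abs_nonneg _
      eq := fun z e => by
        have h := hR e
        have h1 : Th (chS p f) a (Df φ 0) (fun _ => S) z e - T e +
            Df φ 0 * cv (chS p f) (fun _ => S) (fun _ => T) z e -
            (av (chS p f) z R e - R e) = 0 := by
          unfold Th cv
          simp only [av_chS]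
          have h2 : (chS p f).f z e = f e := rfl
          rw [h2]
          have h3 : ∑ i, p e i * ((S i - S e) * (S i - S e)) = ∑ i, p e i * (S i - S e) ^ 2 :=
            Finset.sum_congr rfl fun i _ => by ring
          rw [h3]
          linarith
        rw [h1, abs_zero] }
  -- the variables Z k
  let Z : ℕ → (Site 2 → E) → ℝ := fun k ζ =>
    |∑ z ∈ Bx b k, hk Φ k z * S (ζ z)| + |∑ z ∈ Bx b k, hk Φ k z * T (ζ z)|
  have hZm : ∀ k, Measurable (Z k) := fun k =>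
    (meas_sum _ _ S).abs.add (meas_sum _ _ T).abs
  have hZ0 : ∀ k ζ, 0 ≤ Z k ζ := fun k ζ => add_nonneg (abs_nonneg _) (abs_nonneg _)
  have hZi : ∀ k, Integrable (Z k) ν := fun k =>
    (int_bdd (meas_sum _ _ S) (bd_sum _ _ S hSB)).abs.add
      (int_bdd (meas_sum _ _ T) (bd_sum _ _ T hTB)).abs
  have hMS := hMEG E ν hν S (hk Φ) C b k1 hX.hS hX.h1 hX.hL hX.h0
  have hMT := hMEG E ν hν T (hk Φ) C b k1 hX.hS hX.h1 hX.hL hX.h0
  have hZδ : ∀ δ : ℝ, 0 < δ → ∀ᶠ k in atTop, ∫ ζ, Z k ζ ∂ν ≤ δ := by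
    intro δ hδ
    have h4 : (0 : ℝ) < δ ^ 2 / 4 := by positivity
    filter_upwards [hMS.eventually (ge_mem_nhds h4), hMT.eventually (ge_mem_nhds h4)] with k h1 h2
    have e1 := first_moment (meas_sum _ _ S) (bd_sum _ _ S hSB) hδ h1
    have e2 := first_moment (meas_sum _ _ T) (bd_sum _ _ T hTB) hδ h2
    have e3 : ∫ ζ, Z k ζ ∂ν = ∫ ζ, |∑ z ∈ Bx b k, hk Φ k z * S (ζ z)| ∂ν +
        ∫ ζ, |∑ z ∈ Bx b k, hk Φ k z * T (ζ z)| ∂ν :=
      integral_add (int_bdd (meas_sum _ _ S) (bd_sum _ _ S hSB)).abs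
        (int_bdd (meas_sum _ _ T) (bd_sum _ _ T hTB)).abs
    rw [e3]; linarith
  -- the good set
  let A : Set (Site 2 → E) := {ζ | ∃ᶠ s : ℕ in atTop, ∑ k ∈ Finset.Ico k1 s, Z k ζ ≤ η * s}
  have hA : ∀ δ : ℝ, 0 < δ → MeasurableSet A ∧ 1 - δ / η ≤ ν.real A := fun δ hδ =>
    hFRQ (Site 2 → E) _ ν Z k1 δ η hη hZm (fun k _ ζ => hZ0 k ζ) (fun k _ => hZi k) (hZδ δ hδ)
  have hAm : MeasurableSet A := (hA 1 one_pos).1
  have hA1 : 1 ≤ ν.real A := by
    refine le_of_forall_pos_le_add fun ε hε => ?_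
    have h := (hA (ε * η) (by positivity)).2
    have e : ε * η / η = ε := by field_simp
    rw [e] at h
    linarith
  have hν1 : ν A = 1 := by
    refine le_antisymm prob_le_one ?_
    rw [← ENNReal.ofReal_toReal (measure_ne_top ν A)]
    exact ENNReal.one_le_ofReal.2 hA1
  have hAae : ∀ᵐ ζ ∂ν, ζ ∈ A := (mem_ae_iff_prob_eq_one hAm).2 hν1
  have hAy : ∀ y : Site 2, ∀ᵐ ζ ∂ν, (fun z => ζ (z + y)) ∈ A := by
    intro y
    have hmy : Measurable (fun (ζ : Site 2 → E) z => ζ (z + y)) :=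
      measurable_pi_lambda _ fun z => measurable_pi_apply _
    have h := hAae
    rw [← hν.1 y] at h
    exact ae_of_ae_map hmy.aemeasurable h
  refine ⟨c0, hc0, ?_⟩
  have hall : ∀ᵐ ζ ∂ν, ∀ y : Site 2, (fun z => ζ (z + y)) ∈ A := ae_all_iff.2 hAy
  filter_upwards [hall] with ζ hζ y s0 hs0
  refine hG E E (chS p f) a _ _ _ _ _ φ Φ k1 hDat hX hPoi (fun z => ζ (z + y)) ?_ s0 hs0
  refine (hζ y).mono fun s hs => ?_
  refine le_trans (le_of_eq ?_) hs
  refine Finset.sum_congr rfl fun k _ => ?_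
  simp only [mul_zero, Finset.sum_const_zero, add_zero]
  rfl

end Pool.Agent.Helper60.MKV
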